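import Mathlib
import Pool.Agent.V1171.Hardy.Harnack

/-!
A bounded pseudoconvex domain in `ℂ³` with `C^∞` (even real analytic) boundary whose Lempert
function satisfies no quasi triangle inequality:
`D = {‖z₂ + 1/2‖² + ‖z₀ z₁‖² + ‖z₀‖⁶ + ‖z₁‖⁶ < 1/4}`.
-/

set_option autoImplicit false

open Complex Metric Set Filter Topology

namespace Pool.Agent.Results.MP_68919f_an.NoQuasiTriangle

/-- `u` is a continuous plurisubharmonic function on `D`: it is continuous on `D`, and for every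
closed affine disc `{a + t b : |t| ≤ 1}` contained in `D` the value at the centre is at most the
mean over the boundary circle. -/
def IsContPsh {n : ℕ} (u : (Fin n → ℂ) → ℝ) (D : Set (Fin n → ℂ)) : Prop :=
  ContinuousOn u D ∧ ∀ a b : Fin n → ℂ, (∀ t ∈ closedBall (0 : ℂ) 1, a + t • b ∈ D) →
    u a ≤ Real.circleAverage (fun t => u (a + t • b)) 0 1

/-- `D` is pseudoconvex: it has a continuous plurisubharmonic exhaustion function. -/
def IsPseudoconvex {n : ℕ} (D : Set (Fin n → ℂ)) : Prop :=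
  ∃ u : (Fin n → ℂ) → ℝ, IsContPsh u D ∧ ∀ c : ℝ, IsCompact {z | z ∈ D ∧ u z ≤ c}

/-- `D` has `C^k`-smooth boundary. -/
def HasBoundaryOfClass (k : WithTop ℕ∞) {n : ℕ} (D : Set (Fin n → ℂ)) : Prop :=
  ∀ p ∈ frontier D, ∃ U : Set (Fin n → ℂ), IsOpen U ∧ p ∈ U ∧ ∃ ρ : (Fin n → ℂ) → ℝ,
    ContDiffOn ℝ k ρ U ∧ D ∩ U = {z | z ∈ U ∧ ρ z < 0} ∧
      ∀ q ∈ frontier D ∩ U, fderiv ℝ ρ q ≠ 0

/-- The Lempert function `ℓ_D`. -/
noncomputable def lempert {n : ℕ} (D : Set (Fin n → ℂ)) (z w : Fin n → ℂ) : ℝ :=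
  sInf {r : ℝ | ∃ (φ : ℂ → Fin n → ℂ) (α : ℂ), DifferentiableOn ℂ φ (ball 0 1) ∧
    MapsTo φ (ball 0 1) D ∧ α ∈ ball (0 : ℂ) 1 ∧ φ 0 = z ∧ φ α = w ∧ r = ‖α‖}

/-! ### The domain -/

/-- The sum of squares. -/
noncomputable def S (z : Fin 3 → ℂ) : ℝ :=
  ‖z 2 + 1 / 2‖ ^ 2 + ‖z 0 * z 1‖ ^ 2 + ‖z 0 ^ 3‖ ^ 2 + ‖z 1 ^ 3‖ ^ 2

/-- The domain. -/
def D : Set (Fin 3 → ℂ) := {z | S z < 1 / 4}

theorem contDiff_S (k : WithTop ℕ∞) : ContDiff ℝ k S := by
  unfold S
  have h0 : ContDiff ℝ k (fun z : Fin 3 → ℂ => z 0) := by fun_prop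
  have h1 : ContDiff ℝ k (fun z : Fin 3 → ℂ => z 1) := by fun_prop
  have h2 : ContDiff ℝ k (fun z : Fin 3 → ℂ => z 2) := by fun_prop
  exact (((h2.add contDiff_const).norm_sq ℝ).add ((h0.mul h1).norm_sq ℝ)).add
    ((h0.pow 3).norm_sq ℝ) |>.add ((h1.pow 3).norm_sq ℝ)

theorem continuous_S : Continuous S := (contDiff_S 0).continuous

theorem isOpen_D : IsOpen D := isOpen_lt continuous_S continuous_const

/-- The centre of the domain. -/
noncomputable def ctr : Fin 3 → ℂ := ![0, 0, -1 / 2]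

theorem ctr0 : ctr 0 = 0 := rfl

theorem ctr1 : ctr 1 = 0 := rfl

theorem ctr2 : ctr 2 = -1 / 2 := rfl

theorem S_scale (z : Fin 3 → ℂ) (t : ℝ) : S (z + t • (z - ctr)) =
    (1 + t) ^ 2 * ‖z 2 + 1 / 2‖ ^ 2 + (1 + t) ^ 4 * ‖z 0 * z 1‖ ^ 2 +
      (1 + t) ^ 6 * ‖z 0 ^ 3‖ ^ 2 + (1 + t) ^ 6 * ‖z 1 ^ 3‖ ^ 2 := by
  have e0 : (z + t • (z - ctr)) 0 = (1 + t : ℝ) * z 0 := by
    simp only [Pi.add_apply, Pi.smul_apply, Pi.sub_apply, ctr0, Complex.real_smul]
    push_cast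
    ring
  have e1 : (z + t • (z - ctr)) 1 = (1 + t : ℝ) * z 1 := by
    simp only [Pi.add_apply, Pi.smul_apply, Pi.sub_apply, ctr1, Complex.real_smul]
    push_cast
    ring
  have e2 : (z + t • (z - ctr)) 2 + 1 / 2 = (1 + t : ℝ) * (z 2 + 1 / 2) := by
    simp only [Pi.add_apply, Pi.smul_apply, Pi.sub_apply, ctr2, Complex.real_smul]
    push_cast
    ring
  unfold S
  rw [e0, e1, e2]
  simp only [norm_mul, norm_pow, Complex.norm_real, Real.norm_eq_abs]
  have : |1 + t| ^ 2 = (1 + t) ^ 2 := sq_abs _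
  have h4 : |1 + t| ^ 4 = (1 + t) ^ 4 := by
    rw [show (4 : ℕ) = 2 * 2 by norm_num, pow_mul, pow_mul, this]
  have h6 : |1 + t| ^ 6 = (1 + t) ^ 6 := by
    rw [show (6 : ℕ) = 2 * 3 by norm_num, pow_mul, pow_mul, this]
  rw [← h4, ← h6, ← this]
  ring

theorem ctr_mem : ctr ∈ D := by
  change S ctr < 1 / 4
  unfold S
  rw [ctr0, ctr1, ctr2]
  norm_num

theorem isConnected_D : IsConnected D := by
  have hs : StarConvex ℝ ctr D := by
    intro z hz a b ha hb hab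
    have h1 : a • ctr + b • z = z + (b - 1) • (z - ctr) := by
      have : a = 1 - b := by linarith
      subst this
      module
    have hb1 : b ≤ 1 := by linarith
    change S _ < 1 / 4
    rw [h1, S_scale]
    have hz' : S z < 1 / 4 := hz
    refine lt_of_le_of_lt ?_ hz'
    unfold S
    have e : 1 + (b - 1) = b := by ring
    rw [e]
    have p2 : b ^ 2 ≤ 1 := pow_le_one₀ hb hb1
    have p4 : b ^ 4 ≤ 1 := pow_le_one₀ hb hb1
    have p6 : b ^ 6 ≤ 1 := pow_le_one₀ hb hb1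
    gcongr
    · exact mul_le_of_le_one_left (by positivity) p2
    · exact mul_le_of_le_one_left (by positivity) p4
    · exact mul_le_of_le_one_left (by positivity) p6
    · exact mul_le_of_le_one_left (by positivity) p6
  exact (hs.isPathConnected ctr_mem).isConnected

theorem norm_le_of_S {z : Fin 3 → ℂ} (h : S z ≤ 1 / 4) : ‖z‖ ≤ 1 := by
  unfold S at h
  rw [pi_norm_le_iff_of_nonneg zero_le_one]
  have hn0 := sq_nonneg ‖z 0 * z 1‖
  have hn1 := sq_nonneg ‖z 0 ^ 3‖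
  have hn2 := sq_nonneg ‖z 1 ^ 3‖
  have hn3 := sq_nonneg ‖z 2 + 1 / 2‖
  intro i
  fin_cases i
  · by_contra hc
    push Not at hc
    have hc' : 1 < ‖z 0‖ := hc
    have : 1 ≤ ‖z 0 ^ 3‖ := by rw [norm_pow]; exact one_le_pow₀ hc'.le
    nlinarith
  · by_contra hc
    push Not at hc
    have hc' : 1 < ‖z 1‖ := hc
    have : 1 ≤ ‖z 1 ^ 3‖ := by rw [norm_pow]; exact one_le_pow₀ hc'.le
    nlinarith
  · have h1 : ‖z 2 + 1 / 2‖ ≤ 1 / 2 := by
      nlinarith [norm_nonneg (z 2 + 1 / 2)]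
    have h2 : ‖z 2‖ ≤ ‖z 2 + 1 / 2‖ + ‖(1 / 2 : ℂ)‖ := by
      have := norm_sub_le (z 2 + 1 / 2) (1 / 2)
      simpa using this
    have h3 : ‖(1 / 2 : ℂ)‖ = 1 / 2 := by norm_num
    change ‖z 2‖ ≤ 1
    linarith

theorem isBounded_D : Bornology.IsBounded D :=
  (isBounded_closedBall (x := (0 : Fin 3 → ℂ)) (r := 1)).subset fun z hz => by
    simpa using norm_le_of_S (le_of_lt (show S z < 1 / 4 from hz))

theorem frontier_D {z : Fin 3 → ℂ} (hz : z ∈ frontier D) : S z = 1 / 4 := by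
  have h := frontier_lt_subset_eq continuous_S (continuous_const (y := (1 / 4 : ℝ)))
  exact h hz

theorem boundary (k : WithTop ℕ∞) : HasBoundaryOfClass k D := by
  intro p _
  refine ⟨univ, isOpen_univ, mem_univ _, fun z => S z - 1 / 4,
    ((contDiff_S k).sub contDiff_const).contDiffOn, ?_, ?_⟩
  · ext z
    simp [D]
  · intro q hq h0
    have hq' : S q = 1 / 4 := frontier_D hq.1
    have hd : DifferentiableAt ℝ (fun z => S z - 1 / 4) q :=
      (((contDiff_S 1).sub contDiff_const).differentiable one_ne_zero) q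
    have hline : HasDerivAt (fun t : ℝ => q + t • (q - ctr)) (q - ctr) 0 := by
      have := ((hasDerivAt_id (0 : ℝ)).smul_const (q - ctr)).const_add q
      simpa using this
    have hcomp : HasDerivAt (fun t : ℝ => S (q + t • (q - ctr)) - 1 / 4) 0 0 := by
      have h1 : HasFDerivAt (fun z => S z - 1 / 4) (0 : (Fin 3 → ℂ) →L[ℝ] ℝ)
          (q + (0 : ℝ) • (q - ctr)) := by
        rw [← h0]
        simpa using hd.hasFDerivAt
      have := h1.comp_hasDerivAt (0 : ℝ) hline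
      exact this.congr_deriv rfl
    have hexp : HasDerivAt (fun t : ℝ => S (q + t • (q - ctr)) - 1 / 4)
        (2 * ‖q 2 + 1 / 2‖ ^ 2 + 4 * ‖q 0 * q 1‖ ^ 2 + 6 * ‖q 0 ^ 3‖ ^ 2
          + 6 * ‖q 1 ^ 3‖ ^ 2) 0 := by
      simp_rw [S_scale]
      have hb : HasDerivAt (fun t : ℝ => 1 + t) 1 0 := (hasDerivAt_id (0 : ℝ)).const_add 1
      have h2 := (hb.pow 2).mul_const (‖q 2 + 1 / 2‖ ^ 2)
      have h4 := (hb.pow 4).mul_const (‖q 0 * q 1‖ ^ 2)
      have h6 := (hb.pow 6).mul_const (‖q 0 ^ 3‖ ^ 2)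
      have h6' := (hb.pow 6).mul_const (‖q 1 ^ 3‖ ^ 2)
      have := (((h2.add h4).add h6).add h6').sub_const (1 / 4)
      refine this.congr_deriv ?_
      norm_num
    have huniq := hcomp.unique hexp
    unfold S at hq'
    have hn0 := sq_nonneg ‖q 0 * q 1‖
    have hn1 := sq_nonneg ‖q 0 ^ 3‖
    have hn2 := sq_nonneg ‖q 1 ^ 3‖
    linarith

/-! ### Pseudoconvexity -/

theorem sq_norm_le_circleAverage {h : ℂ → ℂ} (hh : Differentiable ℂ h) :
    ‖h 0‖ ^ 2 ≤ Real.circleAverage (fun t => ‖h t‖ ^ 2) 0 1 := by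
  have h1 : Real.circleAverage (fun t => h t ^ 2) 0 1 = h 0 ^ 2 :=
    (hh.pow 2).diffContOnCl.circleAverage
  have h2 : ‖Real.circleAverage (fun t => h t ^ 2) 0 1‖ ≤
      Real.circleAverage (fun t => ‖h t ^ 2‖) 0 1 := by
    rw [Real.circleAverage, Real.circleAverage, norm_smul, smul_eq_mul, Real.norm_of_nonneg
      (by positivity)]
    exact mul_le_mul_of_nonneg_left (intervalIntegral.norm_integral_le_integral_norm
      Real.two_pi_pos.le) (by positivity)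
  rw [h1, norm_pow] at h2
  simpa only [norm_pow] using h2

theorem S_mean (a b : Fin 3 → ℂ) :
    S a ≤ Real.circleAverage (fun t : ℂ => S (a + t • b)) 0 1 := by
  have hc : ∀ i : Fin 3, Differentiable ℂ (fun t : ℂ => (a + t • b) i) := by
    intro i
    simp only [Pi.add_apply, Pi.smul_apply, smul_eq_mul]
    fun_prop
  have d1 : Differentiable ℂ (fun t : ℂ => (a + t • b) 2 + 1 / 2) := (hc 2).add_const _
  have d2 : Differentiable ℂ (fun t : ℂ => (a + t • b) 0 * (a + t • b) 1) := (hc 0).mul (hc 1)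
  have d3 : Differentiable ℂ (fun t : ℂ => (a + t • b) 0 ^ 3) := (hc 0).pow 3
  have d4 : Differentiable ℂ (fun t : ℂ => (a + t • b) 1 ^ 3) := (hc 1).pow 3
  have int : ∀ {h : ℂ → ℂ}, Differentiable ℂ h → CircleIntegrable (fun t => ‖h t‖ ^ 2) 0 1 :=
    fun hh => ((hh.continuous.norm.pow 2).continuousOn).circleIntegrable zero_le_one
  have e : (fun t : ℂ => S (a + t • b)) =
      (((fun t : ℂ => ‖(a + t • b) 2 + 1 / 2‖ ^ 2) +
        (fun t : ℂ => ‖(a + t • b) 0 * (a + t • b) 1‖ ^ 2)) +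
        (fun t : ℂ => ‖(a + t • b) 0 ^ 3‖ ^ 2)) + (fun t : ℂ => ‖(a + t • b) 1 ^ 3‖ ^ 2) := rfl
  rw [e, Real.circleAverage_add (((int d1).add (int d2)).add (int d3)) (int d4),
    Real.circleAverage_add ((int d1).add (int d2)) (int d3),
    Real.circleAverage_add (int d1) (int d2)]
  have i1 := sq_norm_le_circleAverage d1
  have i2 := sq_norm_le_circleAverage d2
  have i3 := sq_norm_le_circleAverage d3
  have i4 := sq_norm_le_circleAverage d4
  simp only [zero_smul, add_zero] at i1 i2 i3 i4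
  unfold S
  linarith

theorem pseudoconvex_D : IsPseudoconvex D := by
  refine ⟨fun z => (1 / 4 - S z)⁻¹, ⟨?_, ?_⟩, ?_⟩
  · apply ContinuousOn.inv₀
    · exact (continuous_const.sub continuous_S).continuousOn
    · intro z hz
      have h1 : S z < 1 / 4 := hz
      have h2 : 0 < 1 / 4 - S z := by linarith
      exact h2.ne'
  · intro a b hab
    have ha : S a < 1 / 4 := by
      have := hab 0 (by simp)
      simpa [D] using this
    have ha' : 0 < 1 / 4 - S a := by linarith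
    have hcont : Continuous (fun t : ℂ => S (a + t • b)) := continuous_S.comp (by fun_prop)
    have hint : CircleIntegrable (fun t : ℂ => (1 / 4 - S (a + t • b))⁻¹) 0 1 := by
      apply ContinuousOn.circleIntegrable zero_le_one
      apply ContinuousOn.inv₀ (continuous_const.sub hcont).continuousOn
      intro t ht
      have h1 := hab t (sphere_subset_closedBall ht)
      have h2 : S (a + t • b) < 1 / 4 := h1
      have : 0 < 1 / 4 - S (a + t • b) := by linarith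
      exact this.ne'
    have hS : CircleIntegrable (fun t : ℂ => S (a + t • b)) 0 1 :=
      hcont.continuousOn.circleIntegrable zero_le_one
    set κ : ℝ := ((1 / 4 - S a) ^ 2)⁻¹ with hκ
    have hκ0 : 0 < κ := by positivity
    have hlin : CircleIntegrable (fun t : ℂ => (1 / 4 - S a)⁻¹ + κ * (S (a + t • b) - S a)) 0 1 :=
      (continuous_const.add (continuous_const.mul (hcont.sub continuous_const))).continuousOn
        |>.circleIntegrable zero_le_one
    have hmono : Real.circleAverage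
        (fun t : ℂ => (1 / 4 - S a)⁻¹ + κ * (S (a + t • b) - S a)) 0 1 ≤
        Real.circleAverage (fun t : ℂ => (1 / 4 - S (a + t • b))⁻¹) 0 1 := by
      apply Real.circleAverage_mono hlin hint
      intro t ht
      have h1 := hab t (sphere_subset_closedBall (by simpa using ht))
      have h2 : S (a + t • b) < 1 / 4 := h1
      set x := 1 / 4 - S (a + t • b) with hx
      have hx0 : 0 < x := by rw [hx]; linarith
      have e1 : S (a + t • b) - S a = (1 / 4 - S a) - x := by rw [hx]; ring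
      rw [e1, hκ]
      set y := 1 / 4 - S a with hy
      have e2 : x⁻¹ - (y⁻¹ + (y ^ 2)⁻¹ * (y - x)) = (y - x) ^ 2 / (x * y ^ 2) := by
        field_simp
        ring
      have e3 : 0 ≤ (y - x) ^ 2 / (x * y ^ 2) := by positivity
      linarith
    refine le_trans ?_ hmono
    have e4 : Real.circleAverage
        (fun t : ℂ => (1 / 4 - S a)⁻¹ + κ * (S (a + t • b) - S a)) 0 1 =
        (1 / 4 - S a)⁻¹ + κ * (Real.circleAverage (fun t : ℂ => S (a + t • b)) 0 1 - S a) := by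
      have e5 : (fun t : ℂ => (1 / 4 - S a)⁻¹ + κ * (S (a + t • b) - S a)) =
          (fun _ : ℂ => (1 / 4 - S a)⁻¹ - κ * S a) + κ • (fun t : ℂ => S (a + t • b)) := by
        funext t
        simp only [Pi.add_apply, Pi.smul_apply, smul_eq_mul]
        ring
      rw [e5, Real.circleAverage_add (circleIntegrable_const _ _ _) (hS.const_smul),
        Real.circleAverage_const, Real.circleAverage_smul]
      simp only [smul_eq_mul]
      ring
    rw [e4]
    have h5 := S_mean a b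
    nlinarith [mul_nonneg hκ0.le (sub_nonneg.mpr h5)]
  · intro c
    have hset : {z | z ∈ D ∧ (1 / 4 - S z)⁻¹ ≤ c} =
        if 0 < c then {z | S z ≤ 1 / 4 - c⁻¹} else ∅ := by
      ext z
      by_cases hc : 0 < c
      · simp only [hc, if_true, mem_ofPred_eq]
        constructor
        · rintro ⟨h1, h2⟩
          have h1' : 0 < 1 / 4 - S z := by
            have : S z < 1 / 4 := h1
            linarith
          have := inv_le_of_inv_le₀ h1' h2
          linarith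
        · intro h
          have hci : 0 < c⁻¹ := inv_pos.mpr hc
          have h1' : 0 < 1 / 4 - S z := by linarith
          refine ⟨show S z < 1 / 4 by linarith, ?_⟩
          exact inv_le_of_inv_le₀ hc (by linarith)
      · simp only [hc, if_false, mem_ofPred_eq, mem_empty_iff_false, iff_false, not_and, not_le]
        intro h1
        have h1' : 0 < 1 / 4 - S z := by
          have : S z < 1 / 4 := h1
          linarith
        have := inv_pos.mpr h1'
        linarith [not_lt.mp hc]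
    rw [hset]
    split_ifs with hc
    · apply Metric.isCompact_of_isClosed_isBounded
      · exact isClosed_le continuous_S continuous_const
      · refine (isBounded_closedBall (x := (0 : Fin 3 → ℂ)) (r := 1)).subset fun z hz => ?_
        have hz' : S z ≤ 1 / 4 - c⁻¹ := hz
        have hci : 0 < c⁻¹ := inv_pos.mpr hc
        simpa using norm_le_of_S (z := z) (by linarith)
    · exact isCompact_empty

/-! ### The Lempert function -/

theorem lempert_le {n : ℕ} {D : Set (Fin n → ℂ)} {z w : Fin n → ℂ} {φ : ℂ → Fin n → ℂ} {α : ℂ}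
    (h1 : DifferentiableOn ℂ φ (ball 0 1)) (h2 : MapsTo φ (ball 0 1) D)
    (h3 : α ∈ ball (0 : ℂ) 1) (h4 : φ 0 = z) (h5 : φ α = w) : lempert D z w ≤ ‖α‖ := by
  apply csInf_le
  · refine ⟨0, ?_⟩
    rintro r ⟨_, β, _, _, _, _, _, rfl⟩
    exact norm_nonneg β
  · exact ⟨φ, α, h1, h2, h3, h4, h5, rfl⟩

theorem lempert_nonneg {n : ℕ} (D : Set (Fin n → ℂ)) (z w : Fin n → ℂ) : 0 ≤ lempert D z w := by
  apply Real.sInf_nonneg
  rintro r ⟨_, β, _, _, _, _, _, rfl⟩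
  exact norm_nonneg β

/-- The three points. -/
noncomputable def P (a b : ℝ) (t : ℝ) : Fin 3 → ℂ := ![(a : ℂ), (b : ℂ), ((-4 * t ^ 12 : ℝ) : ℂ)]

/-- The discs that we use. -/
noncomputable def disc (a b a' b' : ℝ) (t : ℝ) (l : ℂ) : Fin 3 → ℂ :=
  ![(a : ℂ) + a' * l, (b : ℂ) + b' * l, ((-4 * t ^ 12 : ℝ) : ℂ)]

theorem differentiable_disc (a b a' b' t : ℝ) : Differentiable ℂ (disc a b a' b' t) := by
  rw [differentiable_pi]
  intro i
  fin_cases i
  · change Differentiable ℂ (fun l : ℂ => (a : ℂ) + a' * l)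
    fun_prop
  · change Differentiable ℂ (fun l : ℂ => (b : ℂ) + b' * l)
    fun_prop
  · change Differentiable ℂ (fun _ : ℂ => ((-4 * t ^ 12 : ℝ) : ℂ))
    fun_prop

/-- A disc whose first two coordinates are bounded by `A` and `B` lies in the domain. -/
theorem disc_mem {a b a' b' t A B : ℝ} {l : ℂ} (hA : ‖(a : ℂ) + a' * l‖ ≤ A)
    (hB : ‖(b : ℂ) + b' * l‖ ≤ B) (ht : (1 / 2 - 4 * t ^ 12) ^ 2 + (A * B) ^ 2 + (A ^ 3) ^ 2 +
      (B ^ 3) ^ 2 < 1 / 4) : disc a b a' b' t l ∈ D := by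
  change S _ < 1 / 4
  refine lt_of_le_of_lt ?_ ht
  have e0 : disc a b a' b' t l 0 = (a : ℂ) + a' * l := rfl
  have e1 : disc a b a' b' t l 1 = (b : ℂ) + b' * l := rfl
  have e2 : disc a b a' b' t l 2 = ((-4 * t ^ 12 : ℝ) : ℂ) := rfl
  unfold S
  rw [e0, e1, e2]
  have hA0 : 0 ≤ A := (norm_nonneg _).trans hA
  have h2 : ‖((-4 * t ^ 12 : ℝ) : ℂ) + 1 / 2‖ ^ 2 = (1 / 2 - 4 * t ^ 12) ^ 2 := by
    have : ((-4 * t ^ 12 : ℝ) : ℂ) + 1 / 2 = ((1 / 2 - 4 * t ^ 12 : ℝ) : ℂ) := by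
      push_cast
      ring
    rw [this, Complex.norm_real, Real.norm_eq_abs, sq_abs]
  rw [h2, norm_mul, norm_pow, norm_pow]
  gcongr

theorem disc_zero (a b a' b' t : ℝ) : disc a b a' b' t 0 = P a b t := by
  simp [disc, P]

theorem disc_apply (a b a' b' t r : ℝ) :
    disc a b a' b' t (r : ℂ) = P (a + a' * r) (b + b' * r) t := by
  simp [disc, P]

theorem lempert_disc {a b a' b' t A B r : ℝ} (hr0 : 0 ≤ r) (hr1 : r < 1)
    (hA : ∀ l ∈ ball (0 : ℂ) 1, ‖(a : ℂ) + a' * l‖ ≤ A)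
    (hB : ∀ l ∈ ball (0 : ℂ) 1, ‖(b : ℂ) + b' * l‖ ≤ B)
    (ht : (1 / 2 - 4 * t ^ 12) ^ 2 + (A * B) ^ 2 + (A ^ 3) ^ 2 + (B ^ 3) ^ 2 < 1 / 4) :
    lempert D (P a b t) (P (a + a' * r) (b + b' * r) t) ≤ r := by
  have h := lempert_le (D := D) (z := P a b t) (w := P (a + a' * r) (b + b' * r) t)
    (φ := disc a b a' b' t) (α := (r : ℂ)) (differentiable_disc a b a' b' t).differentiableOn
    (fun l hl => disc_mem (hA l hl) (hB l hl) ht)
    (by simpa [abs_of_nonneg hr0] using hr1) (disc_zero a b a' b' t) (disc_apply a b a' b' t r)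
  simpa [abs_of_nonneg hr0] using h

/-- The lower bound. -/
theorem lower {t : ℝ} (ht0 : 0 < t) {φ : ℂ → Fin 3 → ℂ} {α : ℂ}
    (h1 : DifferentiableOn ℂ φ (ball 0 1)) (h2 : MapsTo φ (ball 0 1) D)
    (h3 : α ∈ ball (0 : ℂ) 1) (h4 : φ 0 = P 0 0 t) (h5 : φ α = P (t ^ 6) (t ^ 6) t)
    (hα : ‖α‖ < 1 / 2) : t ^ 3 / 4 ≤ ‖α‖ := by
  have hd : ∀ i, DifferentiableOn ℂ (fun l => φ l i) (ball 0 1) :=
    fun i => (differentiableOn_pi.mp h1) i
  have ha : ∀ i, AnalyticOnNhd ℂ (fun l => φ l i) (ball 0 1) := fun i =>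
    (hd i).analyticOnNhd isOpen_ball
  have hsub : ball (0 : ℂ) (1 / 2) ⊆ ball 0 1 := ball_subset_ball (by norm_num)
  -- the harmonic function
  have hu : InnerProductSpace.HarmonicOnNhd (fun l => (-(φ l 2)).re) (ball 0 1) := by
    intro l hl
    exact ((ha 2 l hl).neg).harmonicAt_re
  have key : ∀ l ∈ ball (0 : ℂ) 1, ‖φ l 0 * φ l 1‖ ^ 2 ≤ (-(φ l 2)).re := by
    intro l hl
    have h := h2 hl
    change S (φ l) < 1 / 4 at h
    unfold S at h
    have hn1 := sq_nonneg ‖φ l 0 ^ 3‖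
    have hn2 := sq_nonneg ‖φ l 1 ^ 3‖
    have e : ‖φ l 2 + 1 / 2‖ ^ 2 = ‖φ l 2‖ ^ 2 + (φ l 2).re + 1 / 4 := by
      rw [Complex.sq_norm, Complex.sq_norm, Complex.normSq_apply, Complex.normSq_apply]
      simp
      ring
    have hn3 := sq_nonneg ‖φ l 2‖
    rw [Complex.neg_re]
    linarith
  have h0 : ∀ l ∈ ball (0 : ℂ) 1, 0 ≤ (-(φ l 2)).re := fun l hl =>
    (sq_nonneg _).trans (key l hl)
  have hu0 : (-(φ 0 2)).re = 4 * t ^ 12 := by
    rw [h4]
    change (-(((-4 * t ^ 12 : ℝ) : ℂ))).re = _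
    rw [Complex.neg_re, Complex.ofReal_re]
    ring
  have hbound : ∀ l ∈ ball (0 : ℂ) (1 / 2), ‖φ l 0 * φ l 1‖ ≤ 4 * t ^ 6 := by
    intro l hl
    have hl1 : l ∈ ball (0 : ℂ) 1 := hsub hl
    have hln : ‖l‖ < 1 / 2 := by simpa using hl
    have hh := (Pool.Agent.V1171.Hardy.harnack_ball hu h0 hl1).1
    rw [sub_zero, hu0] at hh
    have hk := key l hl1
    have hnn := h0 l hl1
    have h6 : 0 < t ^ 12 := by positivity
    have h7 : (-(φ l 2)).re ≤ 12 * t ^ 12 := by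
      nlinarith [norm_nonneg l]
    have h8 : ‖φ l 0 * φ l 1‖ ^ 2 ≤ (4 * t ^ 6) ^ 2 := by
      have : (4 * t ^ 6) ^ 2 = 16 * t ^ 12 := by ring
      rw [this]
      linarith
    exact le_of_sq_le_sq h8 (by positivity)
  -- the product has a double zero at the origin
  set g : ℂ → ℂ := fun l => φ l 0 * φ l 1 with hg
  have hz0 : φ 0 0 = 0 := by rw [h4]; simp [P]
  have hz1 : φ 0 1 = 0 := by rw [h4]; simp [P]
  have hg0 : g 0 = 0 := by simp [hg, hz0]
  have hgd : DifferentiableOn ℂ g (ball 0 (1 / 2)) := ((hd 0).mul (hd 1)).mono hsub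
  have hmaps : MapsTo g (ball 0 (1 / 2)) (closedBall (g 0) (4 * t ^ 6)) := by
    intro l hl
    rw [hg0, mem_closedBall, dist_zero_right]
    exact hbound l hl
  have hlittle : (fun l => g l - g 0) =o[𝓝 0] (fun w => ‖w - 0‖ ^ 1) := by
    have hmem : ball (0 : ℂ) 1 ∈ 𝓝 (0 : ℂ) := ball_mem_nhds 0 one_pos
    have hb0 : (fun l => φ l 0) =O[𝓝 0] (fun l : ℂ => l) := by
      have := ((hd 0).differentiableAt hmem).isBigO_sub
      simpa [hz0] using this
    have hb1 : (fun l => φ l 1) =O[𝓝 0] (fun l : ℂ => l) := by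
      have := ((hd 1).differentiableAt hmem).isBigO_sub
      simpa [hz1] using this
    have hmul := hb0.mul hb1
    have hsq : (fun l : ℂ => l * l) =o[𝓝 0] (fun w : ℂ => ‖w - 0‖ ^ 1) := by
      rw [Asymptotics.isLittleO_iff]
      intro c hc
      filter_upwards [ball_mem_nhds (0 : ℂ) hc] with l hl
      have : ‖l‖ < c := by simpa using hl
      rw [norm_mul, sub_zero, pow_one, norm_norm]
      exact mul_le_mul_of_nonneg_right this.le (norm_nonneg _)
    have hgg : (fun l => g l - g 0) = fun l => φ l 0 * φ l 1 := by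
      funext l
      rw [hg0, sub_zero]
    rw [hgg]
    exact hmul.trans_isLittleO hsq
  have hαb : α ∈ ball (0 : ℂ) (1 / 2) := by simpa using hα
  have hfin := Complex.dist_le_mul_div_pow_of_mapsTo_ball_of_isLittleO hgd hmaps hlittle hαb
  rw [hg0, dist_zero_right, dist_zero_right] at hfin
  have hgα : ‖g α‖ = t ^ 12 := by
    have e0 : φ α 0 = ((t ^ 6 : ℝ) : ℂ) := by rw [h5]; rfl
    have e1 : φ α 1 = ((t ^ 6 : ℝ) : ℂ) := by rw [h5]; rfl
    simp only [hg, e0, e1]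
    rw [norm_mul, Complex.norm_real, Real.norm_of_nonneg (by positivity)]
    ring
  rw [hgα] at hfin
  have h9 : (t ^ 3 / 4) ^ 2 ≤ ‖α‖ ^ 2 := by
    have h10 : t ^ 12 ≤ 16 * t ^ 6 * ‖α‖ ^ 2 := by
      calc t ^ 12 ≤ 4 * t ^ 6 * (‖α‖ / (1 / 2)) ^ (1 + 1) := hfin
        _ = 16 * t ^ 6 * ‖α‖ ^ 2 := by ring
    have h11 : 0 < 16 * t ^ 6 := by positivity
    have h12 : 16 * t ^ 6 * (t ^ 3 / 4) ^ 2 = t ^ 12 := by ring
    have h13 : 16 * t ^ 6 * (t ^ 3 / 4) ^ 2 ≤ 16 * t ^ 6 * ‖α‖ ^ 2 := by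
      rw [h12]
      exact h10
    exact le_of_mul_le_mul_left h13 h11
  exact le_of_sq_le_sq h9 (norm_nonneg _)

theorem no_qti (C : ℝ) : ∃ x ∈ D, ∃ y ∈ D, ∃ z ∈ D,
    C * (lempert D x y + lempert D y z) < lempert D x z := by
  set t : ℝ := 1 / (12 * (|C| + 1)) with ht
  have hC : 0 ≤ |C| := abs_nonneg C
  have ht0 : 0 < t := by positivity
  have ht12 : 12 * (|C| * t) < 1 := by
    rw [ht]
    have : 12 * (|C| * (1 / (12 * (|C| + 1)))) = |C| / (|C| + 1) := by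
      field_simp
    rw [this, div_lt_one (by positivity)]
    linarith
  have ht1 : t ≤ 1 / 12 := by
    rw [ht]
    apply one_div_le_one_div_of_le (by norm_num)
    linarith
  have ht1' : t < 1 := by linarith
  have p : ∀ n : ℕ, 0 < t ^ n := fun n => pow_pos ht0 n
  have pl : ∀ n : ℕ, t ^ n ≤ 1 := fun n => pow_le_one₀ ht0.le ht1'.le
  have q12 : t ^ 12 ≤ 1 / 12 := by
    calc t ^ 12 = t ^ 11 * t := by ring
      _ ≤ 1 * (1 / 12) := mul_le_mul (pl 11) ht1 ht0.le zero_le_one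
      _ = 1 / 12 := one_mul _
  have q24 : t ^ 24 ≤ 1 / 12 * t ^ 12 := by
    calc t ^ 24 = t ^ 12 * t ^ 12 := by ring
      _ ≤ 1 / 12 * t ^ 12 := mul_le_mul_of_nonneg_right q12 (p 12).le
  have qs : ∀ m : ℕ, 1 ≤ m → t ^ (12 + m) ≤ 1 / 12 * t ^ 12 := by
    intro m hm
    obtain ⟨k, rfl⟩ := Nat.exists_eq_add_of_le hm
    calc t ^ (12 + (1 + k)) = t ^ k * t * t ^ 12 := by ring
      _ ≤ 1 * (1 / 12) * t ^ 12 := by
        gcongr
        exact pl k
      _ = 1 / 12 * t ^ 12 := by ring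
  have hnl : ∀ l ∈ ball (0 : ℂ) 1, ‖l‖ ≤ 1 := fun l hl => by
    have : ‖l‖ < 1 := by simpa using hl
    exact this.le
  have hconst : ∀ (a : ℝ), 0 ≤ a → ∀ l ∈ ball (0 : ℂ) 1, ‖((a : ℝ) : ℂ) + (0 : ℝ) * l‖ ≤ a := by
    intro a ha l _
    simp [abs_of_nonneg ha]
  have hlin : ∀ (a : ℝ), 0 ≤ a → ∀ l ∈ ball (0 : ℂ) 1, ‖((0 : ℝ) : ℂ) + (a : ℝ) * l‖ ≤ a := by
    intro a ha l hl
    simp only [Complex.ofReal_zero, zero_add, norm_mul, Complex.norm_real, Real.norm_eq_abs,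
      abs_of_nonneg ha]
    exact mul_le_of_le_one_right ha (hnl l hl)
  -- conditions
  have c1 : (1 / 2 - 4 * t ^ 12) ^ 2 + (t ^ 2 * 0) ^ 2 + ((t ^ 2) ^ 3) ^ 2 + ((0 : ℝ) ^ 3) ^ 2
      < 1 / 4 := by
    have := p 12
    nlinarith [q24]
  have c2 : (1 / 2 - 4 * t ^ 12) ^ 2 + (t ^ 6 * t ^ 2) ^ 2 + ((t ^ 6) ^ 3) ^ 2 + ((t ^ 2) ^ 3) ^ 2
      < 1 / 4 := by
    have h1 := qs 4 (by norm_num)
    have h2 := qs 24 (by norm_num)
    have := p 12
    nlinarith [q24]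
  have c3 : (1 / 2 - 4 * t ^ 12) ^ 2 + (t ^ 3 * t ^ 3) ^ 2 + ((t ^ 3) ^ 3) ^ 2 + ((t ^ 3) ^ 3) ^ 2
      < 1 / 4 := by
    have h1 := qs 6 (by norm_num)
    have := p 12
    nlinarith [q24]
  -- the two short discs
  have hxy : lempert D (P 0 0 t) (P (t ^ 6) 0 t) ≤ t ^ 4 := by
    have h := lempert_disc (a := 0) (b := 0) (a' := t ^ 2) (b' := 0) (t := t) (A := t ^ 2)
      (B := 0) (r := t ^ 4) (p 4).le (pow_lt_one₀ ht0.le ht1' (by norm_num))
      (hlin _ (p 2).le) (hconst 0 le_rfl) c1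
    have e : (0 : ℝ) + t ^ 2 * t ^ 4 = t ^ 6 := by ring
    rw [e] at h
    simpa using h
  have hyz : lempert D (P (t ^ 6) 0 t) (P (t ^ 6) (t ^ 6) t) ≤ t ^ 4 := by
    have h := lempert_disc (a := t ^ 6) (b := 0) (a' := 0) (b' := t ^ 2) (t := t) (A := t ^ 6)
      (B := t ^ 2) (r := t ^ 4) (p 4).le (pow_lt_one₀ ht0.le ht1' (by norm_num))
      (hconst _ (p 6).le) (hlin _ (p 2).le) c2
    have e : (0 : ℝ) + t ^ 2 * t ^ 4 = t ^ 6 := by ring
    rw [e] at h
    simpa using h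
  have hmem1 : P 0 0 t ∈ D := by
    rw [← disc_zero 0 0 (t ^ 2) 0 t]
    exact disc_mem (hlin _ (p 2).le 0 (by simp)) (hconst 0 le_rfl 0 (by simp)) c1
  have hmem2 : P (t ^ 6) 0 t ∈ D := by
    rw [← disc_zero (t ^ 6) 0 0 (t ^ 2) t]
    exact disc_mem (hconst _ (p 6).le 0 (by simp)) (hlin _ (p 2).le 0 (by simp)) c2
  have hr3 : t ^ 3 < 1 := pow_lt_one₀ ht0.le ht1' (by norm_num)
  have hb3 : ((t ^ 3 : ℝ) : ℂ) ∈ ball (0 : ℂ) 1 := by
    simpa [abs_of_nonneg ht0.le] using hr3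
  have happ : disc 0 0 (t ^ 3) (t ^ 3) t ((t ^ 3 : ℝ) : ℂ) = P (t ^ 6) (t ^ 6) t := by
    rw [disc_apply]
    congr 1 <;> ring
  have hmem3 : P (t ^ 6) (t ^ 6) t ∈ D := by
    rw [← happ]
    exact disc_mem (hlin _ (p 3).le _ hb3) (hlin _ (p 3).le _ hb3) c3
  have hxz : t ^ 3 / 4 ≤ lempert D (P 0 0 t) (P (t ^ 6) (t ^ 6) t) := by
    apply le_csInf
    · exact ⟨_, disc 0 0 (t ^ 3) (t ^ 3) t, ((t ^ 3 : ℝ) : ℂ),
        (differentiable_disc _ _ _ _ _).differentiableOn,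
        fun l hl => disc_mem (hlin _ (p 3).le l hl) (hlin _ (p 3).le l hl) c3, hb3,
        disc_zero _ _ _ _ _, happ, rfl⟩
    · rintro r ⟨φ, α, h1, h2, h3, h4, h5, rfl⟩
      by_cases hα : ‖α‖ < 1 / 2
      · exact lower ht0 h1 h2 h3 h4 h5 hα
      · have := pl 3
        linarith [not_lt.mp hα]
  refine ⟨_, hmem1, _, hmem2, _, hmem3, ?_⟩
  have hs0 : 0 ≤ lempert D (P 0 0 t) (P (t ^ 6) 0 t) +
      lempert D (P (t ^ 6) 0 t) (P (t ^ 6) (t ^ 6) t) :=
    add_nonneg (lempert_nonneg _ _ _) (lempert_nonneg _ _ _)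
  have hs1 : lempert D (P 0 0 t) (P (t ^ 6) 0 t) +
      lempert D (P (t ^ 6) 0 t) (P (t ^ 6) (t ^ 6) t) ≤ 2 * t ^ 4 := by linarith
  refine lt_of_lt_of_le ?_ hxz
  calc C * _ ≤ |C| * _ := mul_le_mul_of_nonneg_right (le_abs_self C) hs0
    _ ≤ |C| * (2 * t ^ 4) := mul_le_mul_of_nonneg_left hs1 hC
    _ = (12 * (|C| * t)) * (t ^ 3 / 6) := by ring
    _ < 1 * (t ^ 3 / 4) := by
      have := p 3
      nlinarith
    _ = t ^ 3 / 4 := one_mul _

/-- There is a bounded pseudoconvex domain in `ℂ³` with real analytic (in particular `C^1`)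
boundary whose Lempert function satisfies no quasi triangle inequality. -/
theorem result : ∃ D : Set (Fin 3 → ℂ), IsOpen D ∧ IsConnected D ∧ Bornology.IsBounded D ∧
    IsPseudoconvex D ∧ (∀ k : WithTop ℕ∞, HasBoundaryOfClass k D) ∧
    ∀ C : ℝ, ∃ x ∈ D, ∃ y ∈ D, ∃ z ∈ D,
      C * (lempert D x y + lempert D y z) < lempert D x z :=
  ⟨D, isOpen_D, isConnected_D, isBounded_D, pseudoconvex_D, boundary, no_qti⟩

end Pool.Agent.Results.MP_68919f_an.NoQuasiTriangle
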